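import Pool.Agent.H13.HP.Defs

/-!
# CART: a logarithmic differential is fixed by the Cartier operator
-/

set_option autoImplicit false

open Polynomial

namespace Pool.Agent.H59.HP

open Pool.Agent.H13.HP

universe u

section

variable {p : ℕ} [Fact p.Prime] {k : Type u} [Field k] [CharP k p]

/-- The derivative is linear over `p`-th powers. -/
theorem der_pow_mul (h r : k[X]) : derivative (h ^ p * r) = h ^ p * derivative r := by
  rw [derivative_mul, derivative_pow]
  simp

theorem iter_pow_mul (n : ℕ) (h r : k[X]) :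
    derivative^[n] (h ^ p * r) = h ^ p * derivative^[n] r := by
  induction n generalizing r with
  | zero => rfl
  | succ n ih => rw [Function.iterate_succ_apply, Function.iterate_succ_apply, der_pow_mul, ih]

theorem iter_add (n : ℕ) (r s : k[X]) :
    derivative^[n] (r + s) = derivative^[n] r + derivative^[n] s := by
  exact iterate_map_add derivative n r s

theorem two_pow_p : ((2 : k[X])) ^ p = 2 := by
  have h : ((1 : k[X]) + 1) ^ p = 1 ^ p + 1 ^ p := add_pow_char _ _ p
  rw [one_pow, one_add_one_eq_two] at h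
  exact h

theorem ppow (x : k[X]) : x ^ p = x ^ (p - 1) * x := by
  have hp1 : 1 ≤ p := (Fact.out : p.Prime).one_le
  rw [← pow_succ, Nat.sub_add_cancel hp1]

/-- The basic identity. -/
theorem basic [IsAlgClosed k] (m : k[X]) :
    derivative^[p - 1] (m ^ (p - 1) * derivative m) + (derivative m) ^ p = 0 := by
  have hp1 : 1 ≤ p := (Fact.out : p.Prime).one_le
  have hpp : p - 1 + 1 = p := Nat.sub_add_cancel hp1
  have hmul : ∀ m₁ m₂ : k[X],
      (derivative^[p - 1] (m₁ ^ (p - 1) * derivative m₁) + (derivative m₁) ^ p = 0) →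
      (derivative^[p - 1] (m₂ ^ (p - 1) * derivative m₂) + (derivative m₂) ^ p = 0) →
      derivative^[p - 1] ((m₁ * m₂) ^ (p - 1) * derivative (m₁ * m₂)) +
        (derivative (m₁ * m₂)) ^ p = 0 := by
    intro m₁ m₂ h1 h2
    have e1 : (m₁ * m₂) ^ (p - 1) * derivative (m₁ * m₂) =
        m₂ ^ p * (m₁ ^ (p - 1) * derivative m₁) + m₁ ^ p * (m₂ ^ (p - 1) * derivative m₂) := by
      rw [derivative_mul, ppow (p := p) m₁, ppow (p := p) m₂, mul_pow]
      ring
    rw [e1, iter_add, iter_pow_mul (p := p), iter_pow_mul (p := p), derivative_mul, add_pow_char,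
      mul_pow, mul_pow]
    linear_combination m₂ ^ p * h1 + m₁ ^ p * h2
  have hC : ∀ c : k, derivative^[p - 1] ((C c) ^ (p - 1) * derivative (C c)) +
      (derivative (C c)) ^ p = 0 := by
    intro c
    rw [derivative_C, mul_zero, zero_pow (by omega), add_zero]
    exact iterate_map_zero derivative _
  have hX : ∀ a : k, derivative^[p - 1] ((X - C a) ^ (p - 1) * derivative (X - C a)) +
      (derivative (X - C a)) ^ p = 0 := by
    intro a
    rw [derivative_X_sub_C, mul_one, one_pow, iterate_derivative_X_sub_pow_self]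
    have hw : (((p - 1).factorial : ℕ) : ZMod p) = -1 := ZMod.wilsons_lemma p
    have h2 := congrArg (ZMod.castHom (dvd_refl p) k[X]) hw
    simp only [map_natCast, map_neg, map_one] at h2
    rw [h2]
    ring
  have hs := (IsAlgClosed.splits m).eq_prod_roots
  rw [hs]
  apply hmul
  · exact hC _
  · apply Multiset.prod_induction (fun m : k[X] =>
      derivative^[p - 1] (m ^ (p - 1) * derivative m) + (derivative m) ^ p = 0)
    · intro x y hx hy
      exact hmul x y hx hy
    · simpa using hC 1
    · intro x hx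
      rw [Multiset.mem_map] at hx
      obtain ⟨a, -, rfl⟩ := hx
      exact hX a

end

theorem cart (hlift : T_LIFT.{u}) : T_CART.{u} := by
  intro p _ k _ _ _ f U W a b w hp2 hU hUW hW hUa hab hda hder
  have hpprime : p.Prime := Fact.out
  have hp1 : 1 ≤ p := hpprime.one_le
  have hodd : Odd p := hpprime.odd_of_ne_two hp2
  have h2 : (2 : k) ≠ 0 := by
    intro h
    have : (p : ℕ) ∣ 2 := by
      rw [← CharP.cast_eq_zero_iff k p 2]
      exact_mod_cast h
    exact hp2 ((Nat.prime_dvd_prime_iff_eq hpprime Nat.prime_two).1 this)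
  have hU0 : U ≠ 0 := by rintro rfl; simp at hU
  set R : k[X] := w ^ p + derivative^[p - 1] (w * f ^ ((p - 1) / 2)) with hR
  set n := R.natDegree + 1 with hn
  set Q : k[X] := U ^ (p * n) with hQ
  obtain ⟨V, hVW, r, hr⟩ := hlift k f U W (p * n) h2 (by nlinarith) hW hUW
  -- `V ^ 2 = f + Q * r`
  have hV2 : V ^ 2 = f + Q * r := by rw [hQ]; linear_combination hr
  have hDQ : ∀ s : k[X], derivative (Q * s) = Q * derivative s := by
    intro s
    rw [hQ, mul_comm p n, pow_mul, der_pow_mul]
  have hIQ : ∀ s : k[X], derivative^[p - 1] (Q * s) = Q * derivative^[p - 1] s := by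
    intro s
    rw [hQ, mul_comm p n, pow_mul, iter_pow_mul]
  have hDV : 2 * V * derivative V = derivative f + Q * derivative r := by
    have := congrArg derivative hV2
    rw [derivative_add, hDQ, derivative_sq] at this
    rw [← this]
    simp only [map_ofNat]
  set m : k[X] := a - b * V with hm
  set t : k[X] := 2 * r * derivative b + b * derivative r with ht
  have hDm : 2 * V * derivative m = - (w * m) - Q * t := by
    rw [hm, derivative_sub, derivative_mul, ht]
    linear_combination V * hda - b * hDV - 2 * derivative b * hV2 + hder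
  -- `V ^ (p - 1) ≡ F`
  have hF : ∃ s : k[X], V ^ (p - 1) = f ^ ((p - 1) / 2) + Q * s := by
    obtain ⟨q, hq⟩ := hodd
    have hpe : p - 1 = 2 * q := by omega
    have hpe2 : (p - 1) / 2 = q := by omega
    rw [hpe2, hpe, pow_mul, hV2]
    have : (f + Q * r) - f ∣ (f + Q * r) ^ q - f ^ q := sub_dvd_pow_sub_pow _ _ q
    have hd : Q ∣ (f + Q * r) ^ q - f ^ q :=
      Dvd.dvd.trans ⟨r, by ring⟩ this
    obtain ⟨s, hs⟩ := hd
    exact ⟨s, by linear_combination hs⟩
  obtain ⟨s, hs⟩ := hF
  have hbas := basic (p := p) m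
  -- multiply by `2 V ^ p`
  have hpp : p - 1 + 1 = p := Nat.sub_add_cancel hp1
  have hleft : V ^ p * (2 * derivative^[p - 1] (m ^ (p - 1) * derivative m)) =
      derivative^[p - 1] (V ^ (p - 1) * m ^ (p - 1) * (2 * V * derivative m)) := by
    have e1 : V ^ (p - 1) * m ^ (p - 1) * (2 * V * derivative m) =
        V ^ p * (C 2 * (m ^ (p - 1) * derivative m)) := by
      rw [ppow (p := p) V]
      simp only [map_ofNat]
      ring
    rw [e1, iter_pow_mul (p := p), iterate_derivative_C_mul]
    simp only [map_ofNat]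
  have e2 : V ^ (p - 1) * m ^ (p - 1) * (2 * V * derivative m) =
      m ^ p * (-(w * f ^ ((p - 1) / 2))) +
        Q * (-(s * m ^ (p - 1) * (w * m + Q * t)) - f ^ ((p - 1) / 2) * m ^ (p - 1) * t) := by
    rw [hDm, hs, ppow (p := p) m]
    ring
  have e3 : (2 * V * derivative m) ^ p = - (w * m) ^ p + Q ^ p * (-t ^ p) := by
    rw [hDm, sub_pow_char, hodd.neg_pow, mul_pow Q t]
    ring
  have e4 : 2 * (V ^ p * (derivative m) ^ p) = (2 * V * derivative m) ^ p := by
    rw [mul_pow, mul_pow, two_pow_p]
    ring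
  have hmain : Q ∣ m ^ p * R := by
    have e5 := hleft
    rw [e2, iter_add, iter_pow_mul (p := p), hIQ, iterate_derivative_neg] at e5
    obtain ⟨Q', hQ'⟩ : ∃ Q', Q ^ p = Q * Q' := ⟨Q ^ (p - 1), by rw [ppow (p := p) Q]; ring⟩
    rw [hQ'] at e3
    refine ⟨derivative^[p - 1] (-(s * m ^ (p - 1) * (w * m + Q * t)) -
      f ^ ((p - 1) / 2) * m ^ (p - 1) * t) - Q' * t ^ p, ?_⟩
    rw [hR]
    have h3 : (w * m) ^ p = w ^ p * m ^ p := mul_pow _ _ _
    rw [h3] at e3
    linear_combination e5 + 2 * V ^ p * (-hbas) + e4 + e3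
  have hcop : IsCoprime U m := by
    have h1 : U ∣ a + b * V := by
      have : a + b * V = (a + b * W) + b * (V - W) := by ring
      rw [this]
      exact dvd_add hab (hVW.mul_left b)
    obtain ⟨q, hq⟩ := h1
    have h3 : m = 2 * a + U * (-q) := by rw [hm]; linear_combination -hq
    rw [h3]
    have h4 : IsCoprime U (2 * a) := by
      have h5 : IsUnit (2 : k[X]) := by
        have : (2 : k[X]) = C 2 := (map_ofNat C 2).symm
        rw [this]
        exact isUnit_C.2 (isUnit_iff_ne_zero.2 h2)
      exact (isCoprime_mul_unit_left_right h5 U a).2 hUa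
    exact h4.add_mul_left_right (-q)
  have hcop2 : IsCoprime Q (m ^ p) := hcop.pow
  have hdiv : Q ∣ R := hcop2.dvd_of_dvd_mul_left hmain
  by_contra hR0
  have hle := natDegree_le_of_dvd hdiv hR0
  rw [hQ, natDegree_pow] at hle
  have : R.natDegree + 1 ≤ p * n * U.natDegree := by
    calc R.natDegree + 1 = 1 * n * 1 := by rw [hn]; ring
      _ ≤ p * n * U.natDegree := by gcongr
  omega

end Pool.Agent.H59.HP
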