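import Pool.Agent.H13.HP.Defs

/-!
# SQK: only boundedly many independent square classes die in a finite extension
-/

set_option autoImplicit false

open Polynomial IntermediateField

namespace Pool.Agent.H59.HP

open Pool.Agent.H13.HP

universe u

/-- Elements of `N(x)` for `x ^ 2 = c`. -/
theorem mem_adjoin_sqrt {N M : Type u} [Field N] [Field M] [Algebra N M] (x z : M) (c : N)
    (hx : x ^ 2 = algebraMap N M c) (hz : z ∈ N⟮x⟯) :
    ∃ a b : N, z = algebraMap N M a + algebraMap N M b * x := by
  have hq : (X ^ 2 - C c : N[X]).Monic := monic_X_pow_sub_C c (by norm_num)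
  have hroot : aeval x (X ^ 2 - C c : N[X]) = 0 := by simp [hx]
  have hint : IsIntegral N x := ⟨X ^ 2 - C c, hq, by simpa [aeval_def] using hroot⟩
  have h1 : z ∈ N⟮x⟯.toSubalgebra := hz
  rw [adjoin_simple_toSubalgebra_of_isAlgebraic hint.isAlgebraic] at h1
  rw [Algebra.adjoin_singleton_eq_range_aeval] at h1
  obtain ⟨p, hp⟩ := h1
  have hp' : aeval x (p %ₘ (X ^ 2 - C c)) = z := by
    rw [Polynomial.aeval_modByMonic_eq_self_of_root hroot]
    exact hp
  have hdeg : (p %ₘ (X ^ 2 - C c)).natDegree ≤ 1 := by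
    have h2 : (X ^ 2 - C c : N[X]).natDegree = 2 := natDegree_X_pow_sub_C
    have h3 := natDegree_modByMonic_lt p hq (by intro h; rw [h] at h2; simp at h2)
    omega
  obtain ⟨b, a, hab⟩ := exists_eq_X_add_C_of_natDegree_le_one hdeg
  refine ⟨a, b, ?_⟩
  rw [← hp', hab]
  simp [add_comm]

theorem sqk : T_SQK.{u} := by
  intro N M _ _ _ _ h2
  classical
  let S := separableClosure N M
  have : Finite (IntermediateField N S) :=
    Field.finite_intermediateField_of_exists_primitive_element N S
      (Field.exists_primitive_element N S)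
  refine ⟨Nat.card (IntermediateField N S), ?_⟩
  intro c hc hcc
  by_contra hcon
  push Not at hcon
  have h2M : (2 : M) ≠ 0 := by
    have := (map_ne_zero (algebraMap N M)).2 h2
    rwa [map_ofNat] at this
  choose x hx using hcon
  have hx2 : ∀ i, x i ^ 2 = algebraMap N M (c i) := by
    intro i
    rw [hx i]; ring
  have hx0 : ∀ i, x i ≠ 0 := by
    intro i h
    have := hx2 i
    rw [h] at this
    have h3 : algebraMap N M (c i) = 0 := by rw [← this]; ring
    exact hc i ((map_eq_zero _).1 h3)
  have hsep : ∀ i, x i ∈ S := by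
    intro i
    rw [mem_separableClosure_iff]
    have h4 : (X ^ 2 - C (c i) : N[X]).Separable := by
      apply separable_X_pow_sub_C
      · simpa using h2
      · exact hc i
    have h5 : aeval (x i) (X ^ 2 - C (c i) : N[X]) = 0 := by simp [hx2 i]
    exact h4.of_dvd (minpoly.dvd N (x i) h5)
  let y : Fin (Nat.card (IntermediateField N S) + 1) → S := fun i => ⟨x i, hsep i⟩
  have hy2 : ∀ i, y i ^ 2 = algebraMap N S (c i) := by
    intro i
    apply Subtype.ext
    simpa using hx2 i
  have hinj : ¬ Function.Injective (fun i => N⟮y i⟯) := by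
    intro hi
    have := Nat.card_le_card_of_injective _ hi
    simp at this
  rw [Function.not_injective_iff] at hinj
  obtain ⟨i, j, hij, hne⟩ := hinj
  apply hcc i j hne
  have hji : y j ∈ N⟮y i⟯ := by
    have : y j ∈ N⟮y j⟯ := mem_adjoin_simple_self N (y j)
    simpa [← hij] using this
  have hiJ : y i ∈ N⟮y j⟯ := by
    have : y i ∈ N⟮y i⟯ := mem_adjoin_simple_self N (y i)
    simpa [hij] using this
  obtain ⟨a, b, hab⟩ := mem_adjoin_sqrt (y i) (y j) (c i) (hy2 i) hji
  obtain ⟨a', b', hab'⟩ := mem_adjoin_sqrt (y j) (y i) (c j) (hy2 j) hiJ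
  have hinjS : Function.Injective (algebraMap N S) := (algebraMap N S).injective
  -- if `y i` and `y j` both come from `N`, the product is a square
  have key : ∀ r s : N, y i = algebraMap N S r → y j = algebraMap N S s →
      IsSquare (c i * c j) := by
    intro r s hr hs
    refine ⟨r * s, hinjS ?_⟩
    rw [map_mul, ← hy2 i, ← hy2 j, hr, hs, map_mul, map_mul]
    ring
  by_cases hi : ∃ r : N, y i = algebraMap N S r
  · obtain ⟨r, hr⟩ := hi
    refine key r (a + b * r) hr ?_
    rw [hab, hr, map_add, map_mul]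
  by_cases hj : ∃ s : N, y j = algebraMap N S s
  · obtain ⟨s, hs⟩ := hj
    refine key (a' + b' * s) s ?_ hs
    rw [hab', hs, map_add, map_mul]
  have hb : b ≠ 0 := by
    rintro rfl
    exact hj ⟨a, by rw [hab]; simp⟩
  have hsq : algebraMap N S (c j) = algebraMap N S (a ^ 2 + b ^ 2 * c i) +
      algebraMap N S (2 * a * b) * y i := by
    rw [← hy2 j, hab, map_add, map_mul, map_mul, map_mul, map_pow, map_pow, ← hy2 i, map_ofNat]
    ring
  have ha : a = 0 := by
    by_contra ha
    have hne2 : (2 * a * b) ≠ 0 := mul_ne_zero (mul_ne_zero h2 ha) hb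
    apply hi
    refine ⟨(c j - (a ^ 2 + b ^ 2 * c i)) / (2 * a * b), ?_⟩
    have hne3 : algebraMap N S (2 * a * b) ≠ 0 := (_root_.map_ne_zero _).2 hne2
    rw [map_div₀, eq_div_iff hne3, map_sub, hsq]
    ring
  refine ⟨b * c i, hinjS ?_⟩
  subst ha
  rw [map_mul, hsq, map_mul (algebraMap N S) (b * c i)]
  simp only [map_add, map_mul, map_pow, map_zero]
  ring

end Pool.Agent.H59.HP
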